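import Pool.Agent.Helper74.Par.Fourier

set_option autoImplicit false

/-!
The alternative of the parity theorem for a partition `(L, R)` of the vertex set: a critical even
edge set between `L'` and `R`, or a lift.
-/

namespace Pool.Agent.Helper74.Par

open Finset

open scoped Classical

variable {V : Type*} [Fintype V]

/-- `A` is a proper 2-colouring of `G[W]`, with value `0` outside `W`. -/
def IsFam (G : SimpleGraph V) (W : Set V) (A : V → ZMod 2) : Prop :=
  (∀ u ∈ W, ∀ w ∈ W, G.Adj u w → A u + A w = 1) ∧ ∀ u, u ∉ W → A u = 0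

/-- The edges between `L` and `R`. -/
abbrev Ed (G : SimpleGraph V) (L R : Set V) : Type _ :=
  {e : V × V // e.1 ∈ L ∧ e.2 ∈ R ∧ G.Adj e.1 e.2}

/-- The degree map of an edge set modulo two. -/
noncomputable def degMap (G : SimpleGraph V) (L R : Set V) :
    (Ed G L R → ZMod 2) →ₗ[ZMod 2] (V → ZMod 2) where
  toFun S w := ∑ e : Ed G L R, S e * ((if e.1.1 = w then 1 else 0) + (if e.1.2 = w then 1 else 0))
  map_add' S T := by
    funext w
    simp only [Pi.add_apply, add_mul, Finset.sum_add_distrib]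
  map_smul' a S := by
    funext w
    simp only [Pi.smul_apply, smul_eq_mul, RingHom.id_apply, Finset.mul_sum, mul_assoc]

/-- The even edge sets between `L` and `R`. -/
abbrev Cyc (G : SimpleGraph V) (L R : Set V) : Type _ := LinearMap.ker (degMap G L R)

/-- The number of edges of `S` from the class `A = 1` to the class `x = 1`, modulo two. -/
noncomputable def M {G : SimpleGraph V} {L R : Set V} (S : Ed G L R → ZMod 2)
    (A x : V → ZMod 2) : ZMod 2 :=
  ∑ e : Ed G L R, S e * (A e.1.1 * x e.1.2)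

lemma M_add_S {G : SimpleGraph V} {L R : Set V} (S T : Ed G L R → ZMod 2) (A x : V → ZMod 2) :
    M (S + T) A x = M S A x + M T A x := by
  simp only [M, Pi.add_apply, add_mul, Finset.sum_add_distrib]

lemma M_add_A {G : SimpleGraph V} {L R : Set V} (S : Ed G L R → ZMod 2) (A B x : V → ZMod 2) :
    M S (A + B) x = M S A x + M S B x := by
  simp only [M, Pi.add_apply, add_mul, mul_add, Finset.sum_add_distrib]

lemma M_add_x {G : SimpleGraph V} {L R : Set V} (S : Ed G L R → ZMod 2) (A x y : V → ZMod 2) :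
    M S A (x + y) = M S A x + M S A y := by
  simp only [M, Pi.add_apply, mul_add, Finset.sum_add_distrib]

/-- The difference of two members of the family may be added to each member. -/
lemma isFam_add_diff {G : SimpleGraph V} {W : Set V} {x y z : V → ZMod 2} (hx : IsFam G W x)
    (hy : IsFam G W y) (hz : IsFam G W z) : IsFam G W (z + (x + y)) := by
  refine ⟨fun u hu w hw h => ?_, fun u hu => ?_⟩
  · have h1 := hx.1 u hu w hw h
    have h2 := hy.1 u hu w hw h
    have h3 := hz.1 u hu w hw h
    simp only [Pi.add_apply]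
    have : z u + (x u + y u) + (z w + (x w + y w)) = (z u + z w) + ((x u + x w) + (y u + y w)) := by
      ring
    rw [this, h1, h2, h3]
    decide
  · simp only [Pi.add_apply, hx.2 u hu, hy.2 u hu, hz.2 u hu]
    decide

/-- Adding a function which is constant along the edges of `G[W]`. -/
lemma isFam_add_const {G : SimpleGraph V} {W : Set V} {z d : V → ZMod 2}
    (hz : IsFam G W z) (hd : ∀ u ∈ W, ∀ w ∈ W, G.Adj u w → d u = d w)
    (hd0 : ∀ u, u ∉ W → d u = 0) : IsFam G W (z + d) := by
  refine ⟨fun u hu w hw h => ?_, fun u hu => ?_⟩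
  · have h3 := hz.1 u hu w hw h
    simp only [Pi.add_apply]
    have : z u + d u + (z w + d w) = (z u + z w) + (d u + d w) := by ring
    rw [this, h3, hd u hu w hw h, zmod2_add_self, add_zero]
  · simp only [Pi.add_apply, hz.2 u hu, hd0 u hu, add_zero]

/-- The family as a type. -/
abbrev Fam (G : SimpleGraph V) (W : Set V) : Type _ := {A : V → ZMod 2 // IsFam G W A}

/-- Translation of the family by the difference of two members. -/
def famShift {G : SimpleGraph V} {W : Set V} (x y : Fam G W) : Fam G W ≃ Fam G W where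
  toFun z := ⟨z.1 + (x.1 + y.1), isFam_add_diff x.2 y.2 z.2⟩
  invFun z := ⟨z.1 + (x.1 + y.1), isFam_add_diff x.2 y.2 z.2⟩
  left_inv z := by
    apply Subtype.ext
    funext u
    simp only [Pi.add_apply]
    generalize z.1 u = a
    generalize x.1 u + y.1 u = b
    revert a b; decide
  right_inv z := by
    apply Subtype.ext
    funext u
    simp only [Pi.add_apply]
    generalize z.1 u = a
    generalize x.1 u + y.1 u = b
    revert a b; decide

lemma balanced_x {G : SimpleGraph V} {L R W : Set V} (S : Ed G L R → ZMod 2) (A : V → ZMod 2) :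
    (∀ k k' : Fam G W, M S A k.1 = M S A k'.1) ∨ ∑ k : Fam G W, sg (M S A k.1) = 0 := by
  by_cases hc : ∀ k k' : Fam G W, M S A k.1 = M S A k'.1
  · exact Or.inl hc
  · right
    push Not at hc
    obtain ⟨x, y, hxy⟩ := hc
    refine sum_sg_eq_zero (fun k : Fam G W => M S A k.1) (famShift x y) fun z => ?_
    change M S A (z.1 + (x.1 + y.1)) = M S A z.1 + 1
    rw [M_add_x, M_add_x, zmod2_ne _ _ hxy]

lemma balanced_A {G : SimpleGraph V} {L R W : Set V} (S : Ed G L R → ZMod 2) (x : V → ZMod 2) :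
    (∀ k k' : Fam G W, M S k.1 x = M S k'.1 x) ∨ ∑ k : Fam G W, sg (M S k.1 x) = 0 := by
  by_cases hc : ∀ k k' : Fam G W, M S k.1 x = M S k'.1 x
  · exact Or.inl hc
  · right
    push Not at hc
    obtain ⟨y, z, hxy⟩ := hc
    refine sum_sg_eq_zero (fun k : Fam G W => M S k.1 x) (famShift y z) fun w => ?_
    change M S (w.1 + (y.1 + z.1)) x = M S w.1 x + 1
    rw [M_add_A, M_add_A, zmod2_ne _ _ hxy]

/-- Evenness: the sum of `g` over the ends of the edges of an even edge set vanishes. -/
lemma sum_ends {G : SimpleGraph V} {L R : Set V} (S : Cyc G L R) (g : V → ZMod 2) :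
    ∑ e : Ed G L R, S.1 e * (g e.1.1 + g e.1.2) = 0 := by
  have h : ∀ w, ∑ e : Ed G L R,
      S.1 e * ((if e.1.1 = w then (1 : ZMod 2) else 0) + (if e.1.2 = w then 1 else 0)) = 0 := by
    intro w
    have := congrFun (LinearMap.mem_ker.mp S.2) w
    exact this
  have h2 : ∑ w, g w * ∑ e : Ed G L R,
      S.1 e * ((if e.1.1 = w then (1 : ZMod 2) else 0) + (if e.1.2 = w then 1 else 0)) = 0 :=
    Finset.sum_eq_zero fun w _ => by rw [h w, mul_zero]
  rw [← h2]
  simp_rw [Finset.mul_sum]
  rw [Finset.sum_comm]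
  refine Finset.sum_congr rfl fun e _ => ?_
  have : ∀ w, g w * (S.1 e * ((if e.1.1 = w then (1 : ZMod 2) else 0) +
      (if e.1.2 = w then 1 else 0))) =
      (if e.1.1 = w then S.1 e * g w else 0) + (if e.1.2 = w then S.1 e * g w else 0) := by
    intro w
    split_ifs <;> ring
  simp_rw [this]
  rw [Finset.sum_add_distrib, Finset.sum_ite_eq, Finset.sum_ite_eq]
  simp [mul_add]

/-- The alternative: a lift, or a critical even edge set of value one. -/
theorem alternative (G : SimpleGraph V) (L R L' : Set V)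
    (hA : ∃ A, IsFam G L A) (hx : ∃ x, IsFam G R x) :
    (∃ A x q : V → ZMod 2, IsFam G L A ∧ IsFam G R x ∧
      ∀ l ∈ L', ∀ r ∈ R, G.Adj l r → q l + q r = A l * x r) ∨
    (∃ (S : Cyc G L' R) (A x : V → ZMod 2), IsFam G L A ∧ IsFam G R x ∧
      (∀ B, IsFam G L B → M S.1 B x = 1) ∧ (∀ y, IsFam G R y → M S.1 A y = 1)) := by
  by_cases hz : ∀ (A : Fam G L) (x : Fam G R), ∃ S : Cyc G L' R, M S.1 A.1 x.1 = 1
  · right
    haveI : Nonempty (Fam G L) := ⟨⟨hA.choose, hA.choose_spec⟩⟩
    haveI : Nonempty (Fam G R) := ⟨⟨hx.choose, hx.choose_spec⟩⟩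
    obtain ⟨S, hS⟩ := exists_neg (fun (S : Cyc G L' R) (A : Fam G L) (x : Fam G R) =>
      M S.1 A.1 x.1) (fun s t h k => M_add_S _ _ _ _) hz
    obtain ⟨A, x, -, h1, h2⟩ := exists_critical (fun (A : Fam G L) (x : Fam G R) => M S.1 A.1 x.1)
      (fun A => balanced_x S.1 A.1) (fun x => balanced_A S.1 x.1) hS
    exact ⟨S, A.1, x.1, A.2, x.2, fun B hB => h2 ⟨B, hB⟩, fun y hy => h1 ⟨y, hy⟩⟩
  · left
    push Not at hz
    obtain ⟨A, x, hz⟩ := hz
    have hz' : ∀ S : Cyc G L' R, M S.1 A.1 x.1 = 0 := fun S =>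
      (zmod2_cases _).resolve_right (hz S)
    -- the functional `S ↦ M S A x`
    let φ : (Ed G L' R → ZMod 2) →ₗ[ZMod 2] ZMod 2 :=
      { toFun := fun S => M S A.1 x.1
        map_add' := fun S T => M_add_S S T _ _
        map_smul' := fun a S => by
          simp only [M, Pi.smul_apply, smul_eq_mul, RingHom.id_apply, Finset.mul_sum, mul_assoc] }
    have hφ : φ ∈ (LinearMap.ker (degMap G L' R)).dualAnnihilator := by
      rw [Submodule.mem_dualAnnihilator]
      intro S hS
      exact hz' ⟨S, hS⟩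
    rw [← LinearMap.range_dualMap_eq_dualAnnihilator_ker] at hφ
    obtain ⟨ψ, hψ⟩ := hφ
    refine ⟨A.1, x.1, fun w => ψ (Pi.single w 1), A.2, x.2, fun l hl r hr hlr => ?_⟩
    have h1 := congrArg (fun f => f (Pi.single (⟨(l, r), hl, hr, hlr⟩ : Ed G L' R) 1)) hψ
    have h2 : φ (Pi.single (⟨(l, r), hl, hr, hlr⟩ : Ed G L' R) 1) = A.1 l * x.1 r := by
      change M (Pi.single (⟨(l, r), hl, hr, hlr⟩ : Ed G L' R) 1) A.1 x.1 = _
      simp only [M]
      rw [Finset.sum_eq_single (⟨(l, r), hl, hr, hlr⟩ : Ed G L' R)]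
      · simp
      · intro b _ hb
        rw [Pi.single_eq_of_ne hb, zero_mul]
      · intro h
        exact absurd (Finset.mem_univ _) h
    have h3 : degMap G L' R (Pi.single (⟨(l, r), hl, hr, hlr⟩ : Ed G L' R) 1) =
        Pi.single l 1 + Pi.single r 1 := by
      funext w
      change ∑ e : Ed G L' R, _ = _
      rw [Finset.sum_eq_single (⟨(l, r), hl, hr, hlr⟩ : Ed G L' R)]
      · simp only [Pi.single_eq_same, one_mul, Pi.add_apply, Pi.single_apply, eq_comm]
      · intro b _ hb
        rw [Pi.single_eq_of_ne hb, zero_mul]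
      · intro h
        exact absurd (Finset.mem_univ _) h
    have h4 : (degMap G L' R).dualMap ψ (Pi.single (⟨(l, r), hl, hr, hlr⟩ : Ed G L' R) 1) =
        ψ (Pi.single l 1) + ψ (Pi.single r 1) := by
      rw [LinearMap.dualMap_apply, h3, map_add]
    rw [← h4, ← h2]
    exact h1

end Pool.Agent.Helper74.Par
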