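import Mathlib

set_option autoImplicit false

/-!
Odd sets of a 4-colouring: the parity version of the basis of a chromatic 4-scheme.
-/

namespace Pool.Agent.Helper74.Par

universe u

/-- `v` and `w` are joined by a walk of `G` all of whose vertices have colour `a` or `b`. -/
def BiJoined {V : Type u} (G : SimpleGraph V) (Q : V → Fin 4) (a b : Fin 4) (v w : V) : Prop :=
  ∃ p : G.Walk v w, ∀ z ∈ p.support, Q z = a ∨ Q z = b

/-- `T` contains an odd number of vertices of each colour, and an even number of vertices of each
component of the subgraph induced by two colour classes (the component of `v` for the colours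
`a, b` is the set of the `w` with `BiJoined G Q a b v w`). -/
structure IsOddSet {V : Type u} (G : SimpleGraph V) (Q : G.Coloring (Fin 4)) (T : Set V) :
    Prop where
  odd : ∀ a, Odd (T ∩ {v | Q v = a}).ncard
  even : ∀ a b, a ≠ b → ∀ v, Even (T ∩ {w | BiJoined G Q a b v w}).ncard

/-- `S` is independent, `G - S` is 3-colourable, but `G - (S \ {v})` is not, where `v ∈ S`. -/
structure IsRoot {V : Type u} (G : SimpleGraph V) (S : Set V) (v : V) : Prop where
  mem : v ∈ S
  indep : ∀ a ∈ S, ∀ b ∈ S, ¬ G.Adj a b
  col : (G.induce Sᶜ).Colorable 3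
  not_col : ¬ (G.induce (S \ {v})ᶜ).Colorable 3

end Pool.Agent.Helper74.Par
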