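import Pool.Agent.Helper74.Par.Root

set_option autoImplicit false

namespace Pool.Agent.Helper74.Par

universe u

/-- Every finite 4-chromatic graph has a root, and for each root `(S, v)` there are a 4-colouring
and an odd set which meets `S` exactly in `v`. -/
theorem parity {V : Type u} [Finite V] (G : SimpleGraph V) (hχ : G.chromaticNumber = 4) :
    (∃ S v, IsRoot G S v) ∧
    ∀ (S : Set V) (v : V), IsRoot G S v →
      ∃ (Q : G.Coloring (Fin 4)) (T : Set V), IsOddSet G Q T ∧ T ∩ S = {v} ∧
        (S = {v} → T ∩ {w | Q w = Q v} = {v}) := by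
  have h4 : G.Colorable 4 := by
    rw [← SimpleGraph.chromaticNumber_le_iff_colorable, hχ]; rfl
  have h3 : ¬ G.Colorable 3 := by
    intro h
    rw [← SimpleGraph.chromaticNumber_le_iff_colorable, hχ] at h
    exact absurd h (by decide)
  letI := Fintype.ofFinite V
  exact ⟨exists_root h4 h3, fun S v h => rooted h⟩

end Pool.Agent.Helper74.Par
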