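import Mathlib

set_option autoImplicit false

/-!
Signs and the critical point lemma for functions which are constant or balanced in each variable.
-/

namespace Pool.Agent.Helper74.Par

open Finset

/-- The sign of an element of the field with two elements. -/
def sg (a : ZMod 2) : ℤ := if a = 0 then 1 else -1

lemma sg_zero : sg 0 = 1 := by simp [sg]

lemma sg_one : sg 1 = -1 := by simp [sg]

lemma sg_add_one (a : ZMod 2) : sg (a + 1) = - sg a := by
  revert a; decide

lemma zmod2_cases (a : ZMod 2) : a = 0 ∨ a = 1 := by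
  revert a; decide

lemma zmod2_ne (a b : ZMod 2) (h : a ≠ b) : a + b = 1 := by
  revert a b; decide

lemma zmod2_add_self (a : ZMod 2) : a + a = 0 := by
  revert a; decide

/-- A function changed by a bijection at each point is balanced. -/
lemma sum_sg_eq_zero {P : Type*} [Fintype P] (g : P → ZMod 2) (e : P ≃ P)
    (he : ∀ p, g (e p) = g p + 1) : ∑ p, sg (g p) = 0 := by
  have h1 : ∑ p, sg (g (e p)) = ∑ p, sg (g p) := Equiv.sum_comp e (fun p => sg (g p))
  have h2 : ∑ p, sg (g (e p)) = - ∑ p, sg (g p) := by
    rw [← Finset.sum_neg_distrib]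
    exact Finset.sum_congr rfl fun p _ => by rw [he p, sg_add_one]
  omega

lemma const_one_of_neg {P : Type*} [Fintype P] (u : P → ZMod 2)
    (hu : (∀ k k', u k = u k') ∨ ∑ k, sg (u k) = 0) (hs : ∑ k, sg (u k) < 0) : ∀ k, u k = 1 := by
  intro k
  rcases hu with hu | hu
  · rcases zmod2_cases (u k) with h0 | h1
    · exfalso
      have : ∑ k', sg (u k') = ∑ _k' : P, (1 : ℤ) :=
        Finset.sum_congr rfl fun k' _ => by rw [hu k' k, h0, sg_zero]
      rw [this] at hs
      simp at hs
      have : (0 : ℤ) ≤ (Fintype.card P : ℤ) := Int.natCast_nonneg _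
      omega
    · exact h1
  · omega

/-- Critical points: if `g` is, in each variable, constant or balanced, and if the sum of the signs
is negative, then there is a point of value one at which `g` is constant in both directions. -/
lemma exists_critical {E F : Type*} [Fintype E] [Fintype F] (g : E → F → ZMod 2)
    (hE : ∀ h, (∀ k k', g h k = g h k') ∨ ∑ k, sg (g h k) = 0)
    (hF : ∀ k, (∀ h h', g h k = g h' k) ∨ ∑ h, sg (g h k) = 0)
    (hneg : ∑ h, ∑ k, sg (g h k) < 0) :
    ∃ h k, g h k = 1 ∧ (∀ k', g h k' = 1) ∧ (∀ h', g h' k = 1) := by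
  have h1 : ∃ h, ∑ k, sg (g h k) < 0 := by
    by_contra hc
    push Not at hc
    have := Finset.sum_nonneg (s := (Finset.univ : Finset E)) fun h _ => hc h
    omega
  have hneg' : ∑ k, ∑ h, sg (g h k) < 0 := by rwa [Finset.sum_comm]
  have h2 : ∃ k, ∑ h, sg (g h k) < 0 := by
    by_contra hc
    push Not at hc
    have := Finset.sum_nonneg (s := (Finset.univ : Finset F)) fun k _ => hc k
    omega
  obtain ⟨h, hh⟩ := h1
  obtain ⟨k, hk⟩ := h2
  have a1 := const_one_of_neg (fun k => g h k) (hE h) hh
  have a2 := const_one_of_neg (fun h => g h k) (hF k) hk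
  exact ⟨h, k, a1 k, a1, a2⟩

/-- If a linear family of functions has no common zero, some member has a negative sum. -/
lemma exists_neg {S E F : Type*} [AddCommGroup S] [Fintype S] [Fintype E] [Fintype F]
    [Nonempty E] [Nonempty F] (M : S → E → F → ZMod 2)
    (hadd : ∀ s t h k, M (s + t) h k = M s h k + M t h k)
    (hz : ∀ h k, ∃ s, M s h k = 1) :
    ∃ s, ∑ h, ∑ k, sg (M s h k) < 0 := by
  classical
  by_contra hc
  push Not at hc
  have htot : ∑ s, ∑ h, ∑ k, sg (M s h k) = 0 := by
    rw [Finset.sum_comm]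
    refine Finset.sum_eq_zero fun h _ => ?_
    rw [Finset.sum_comm]
    refine Finset.sum_eq_zero fun k _ => ?_
    obtain ⟨t, ht⟩ := hz h k
    exact sum_sg_eq_zero (fun s => M s h k) (Equiv.addRight t) fun s => by
      simp only [Equiv.coe_addRight]
      rw [hadd, ht]
  have h0 : ∀ h k, M 0 h k = 0 := fun h k => by
    have := hadd 0 0 h k
    rw [add_zero] at this
    have h2 := zmod2_add_self (M 0 h k)
    rw [← this] at h2
    exact h2
  have hpos : 0 < ∑ h, ∑ k, sg (M 0 h k) := by
    have : ∑ h, ∑ k, sg (M 0 h k) = (Fintype.card E : ℤ) * (Fintype.card F : ℤ) := by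
      simp [h0, sg_zero]
    rw [this]
    have h1 : 0 < Fintype.card E := Fintype.card_pos
    have h2 : 0 < Fintype.card F := Fintype.card_pos
    positivity
  have := Finset.sum_eq_zero_iff_of_nonneg (s := (Finset.univ : Finset S))
    (f := fun s => ∑ h, ∑ k, sg (M s h k)) (fun s _ => hc s)
  have h3 : ∑ h, ∑ k, sg (M 0 h k) = 0 := (this.mp htot) 0 (Finset.mem_univ _)
  omega

end Pool.Agent.Helper74.Par
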