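import Pool.Agent.Helper58.Scheme.Basic
import Pool.Agent.Helper74.Par.Def

set_option autoImplicit false

/-!
A chromatic 4-scheme is the same thing as a 4-colouring with an odd set of four elements.
-/

namespace Pool.Agent.Helper74.Par

open Pool.Agent.Helper58.Scheme

universe u

variable {V : Type u} {G : SimpleGraph V}

lemma BiJoined.symm {Q : V → Fin 4} {a b : Fin 4} {v w : V} (h : BiJoined G Q a b v w) :
    BiJoined G Q a b w v := by
  obtain ⟨p, hp⟩ := h
  refine ⟨p.reverse, fun z hz => hp z ?_⟩
  rwa [SimpleGraph.Walk.support_reverse, List.mem_reverse] at hz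

lemma BiJoined.trans {Q : V → Fin 4} {a b : Fin 4} {u v w : V} (h : BiJoined G Q a b u v)
    (h' : BiJoined G Q a b v w) : BiJoined G Q a b u w := by
  obtain ⟨p, hp⟩ := h
  obtain ⟨q, hq⟩ := h'
  refine ⟨p.append q, fun z hz => ?_⟩
  rw [SimpleGraph.Walk.mem_support_append_iff] at hz
  rcases hz with hz | hz
  · exact hp z hz
  · exact hq z hz

lemma BiJoined.right {Q : V → Fin 4} {a b : Fin 4} {v w : V} (h : BiJoined G Q a b v w) :
    Q w = a ∨ Q w = b := by
  obtain ⟨p, hp⟩ := h
  exact hp w p.end_mem_support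

/-- the basis of a chromatic 4-scheme is an odd set -/
theorem odd_of_scheme (S : ChromaticFourScheme G) :
    IsOddSet G S.Q (Set.range S.v) ∧ (Set.range S.v).ncard = 4 := by
  have hinj : Function.Injective (fun i => S.Q (S.v i)) := by
    intro i j hij
    by_contra hne
    exact S.colours_distinct i j hne hij
  have hsurj : Function.Surjective (fun i => S.Q (S.v i)) :=
    Finite.surjective_of_injective hinj
  have hlink : ∀ i j : Fin 4, i ≠ j → BiJoined G S.Q (S.Q (S.v i)) (S.Q (S.v j)) (S.v i) (S.v j) := by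
    intro i j hij
    rcases lt_or_gt_of_ne hij with h | h
    · exact ⟨S.link i j h, S.link_bicoloured i j h⟩
    · refine BiJoined.symm ⟨S.link j i h, fun z hz => ?_⟩
      exact (S.link_bicoloured j i h z hz).symm
  refine ⟨⟨?_, ?_⟩, ?_⟩
  · intro a
    obtain ⟨i, hi⟩ := hsurj a
    have : Set.range S.v ∩ {v | S.Q v = a} = {S.v i} := by
      ext w
      simp only [Set.mem_inter_iff, Set.mem_range, Set.mem_ofPred_eq, Set.mem_singleton_iff]
      constructor
      · rintro ⟨⟨j, rfl⟩, hj⟩
        have : j = i := hinj (by simp only; rw [hj]; exact hi.symm)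
        rw [this]
      · rintro rfl
        exact ⟨⟨i, rfl⟩, hi⟩
    rw [this, Set.ncard_singleton]
    exact odd_one
  · intro a b hab w
    obtain ⟨i, hi⟩ := hsurj a
    obtain ⟨j, hj⟩ := hsurj b
    simp only at hi hj
    have hij : i ≠ j := by
      rintro rfl
      exact hab (hi.symm.trans hj)
    have hl := hlink i j hij
    rw [hi, hj] at hl
    have hcol : ∀ k, S.Q (S.v k) = a ∨ S.Q (S.v k) = b → k = i ∨ k = j := by
      intro k hk
      rcases hk with hk | hk
      · left; exact hinj (by simp only; rw [hk, hi])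
      · right; exact hinj (by simp only; rw [hk, hj])
    by_cases h : BiJoined G S.Q a b w (S.v i)
    · have : Set.range S.v ∩ {u | BiJoined G S.Q a b w u} = {S.v i, S.v j} := by
        ext u
        simp only [Set.mem_inter_iff, Set.mem_range, Set.mem_ofPred_eq, Set.mem_insert_iff,
          Set.mem_singleton_iff]
        constructor
        · rintro ⟨⟨k, rfl⟩, hk⟩
          rcases hcol k hk.right with rfl | rfl
          · exact Or.inl rfl
          · exact Or.inr rfl
        · rintro (rfl | rfl)
          · exact ⟨⟨i, rfl⟩, h⟩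
          · exact ⟨⟨j, rfl⟩, h.trans hl⟩
      rw [this, Set.ncard_pair (fun h' => hij (S.v_injective h'))]
      exact even_two
    · have : Set.range S.v ∩ {u | BiJoined G S.Q a b w u} = ∅ := by
        ext u
        simp only [Set.mem_inter_iff, Set.mem_range, Set.mem_ofPred_eq, Set.mem_empty_iff_false,
          iff_false]
        rintro ⟨⟨k, rfl⟩, hk⟩
        rcases hcol k hk.right with rfl | rfl
        · exact h hk
        · exact h (hk.trans hl.symm)
      rw [this, Set.ncard_empty]
      exact Even.zero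
  · rw [← Set.image_univ, Set.ncard_image_of_injective _ S.v_injective, Set.ncard_univ]
    simp

/-- an odd set of four elements is the basis of a chromatic 4-scheme -/
theorem scheme_of_odd (Q : G.Coloring (Fin 4)) {T : Set V} (hT : IsOddSet G Q T)
    (h4 : T.ncard = 4) : Nonempty (ChromaticFourScheme G) := by
  classical
  have hfin : T.Finite := Set.finite_of_ncard_ne_zero (by rw [h4]; decide)
  -- the classes partition `T`
  have hsum : ∑ a : Fin 4, (T ∩ {v | Q v = a}).ncard = 4 := by
    lift T to Finset V using hfin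
    refine Eq.trans ?_ h4
    have hc : ∀ a : Fin 4, ((T : Set V) ∩ {v | Q v = a}).ncard = (T.filter (fun v => Q v = a)).card := by
      intro a
      rw [← Set.ncard_coe_finset]
      congr 1
      ext w; simp
    rw [Set.ncard_coe_finset]
    simp_rw [hc]
    exact (Finset.card_eq_sum_card_fiberwise (f := fun v => Q v) (t := Finset.univ)
      (fun v _ => Finset.mem_coe.mpr (Finset.mem_univ _))).symm
  have hge : ∀ a : Fin 4, 1 ≤ (T ∩ {v | Q v = a}).ncard := fun a => (hT.odd a).pos
  have hone : ∀ a : Fin 4, (T ∩ {v | Q v = a}).ncard = 1 := by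
    rw [Fin.sum_univ_four] at hsum
    have h0 := hge 0
    have h1 := hge 1
    have h2 := hge 2
    have h3 := hge 3
    intro a
    fin_cases a <;> simp only [Fin.zero_eta, Fin.mk_one, Fin.reduceFinMk] <;> omega
  have hv : ∀ a : Fin 4, ∃ v, T ∩ {w | Q w = a} = {v} := fun a => Set.ncard_eq_one.mp (hone a)
  choose v hv using hv
  have hmem : ∀ a, v a ∈ T ∧ Q (v a) = a := by
    intro a
    have : v a ∈ T ∩ {w | Q w = a} := by rw [hv a]; exact rfl
    exact this
  have huniq : ∀ a w, w ∈ T → Q w = a → w = v a := by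
    intro a w hw hwa
    have : w ∈ T ∩ {w | Q w = a} := ⟨hw, hwa⟩
    rw [hv a] at this
    exact this
  refine scheme_of_good (Q := Q) (fun x y hxy => Q.valid hxy) ⟨v, ?_, ?_⟩
  · intro i j hij
    rw [(hmem i).2, (hmem j).2]
    exact hij
  · intro i j hij
    have hne : i ≠ j := hij.ne
    have he := hT.even i j hne (v i)
    have hmi : v i ∈ T ∩ {w | BiJoined G Q i j (v i) w} :=
      ⟨(hmem i).1, SimpleGraph.Walk.nil, fun z hz => by
        rw [SimpleGraph.Walk.support_nil, List.mem_singleton] at hz
        rw [hz]; exact Or.inl (hmem i).2⟩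
    have hf : (T ∩ {w | BiJoined G Q i j (v i) w}).Finite := hfin.subset Set.inter_subset_left
    have hpos : 0 < (T ∩ {w | BiJoined G Q i j (v i) w}).ncard :=
      (Set.ncard_pos hf).mpr ⟨_, hmi⟩
    have h2 : 1 < (T ∩ {w | BiJoined G Q i j (v i) w}).ncard := by
      rcases he with ⟨r, hr⟩
      omega
    obtain ⟨u, hu, hune⟩ : ∃ u, u ∈ T ∩ {w | BiJoined G Q i j (v i) w} ∧ u ≠ v i := by
      obtain ⟨a, b, ha, hb, hab⟩ := (Set.one_lt_ncard_iff hf).mp h2
      by_cases h : a = v i
      · exact ⟨b, hb, fun h' => hab (h.trans h'.symm)⟩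
      · exact ⟨a, ha, h⟩
    have huj : u = v j := by
      rcases hu.2.right with h | h
      · exact absurd (huniq i u hu.1 h) hune
      · exact huniq j u hu.1 h
    obtain ⟨p, hp⟩ := hu.2
    subst huj
    refine ⟨p, fun z hz => ?_⟩
    rw [(hmem i).2, (hmem j).2]
    exact hp z hz

/-- A graph has a chromatic 4-scheme if and only if some 4-colouring has an odd set of four
elements. -/
theorem scheme_iff (G : SimpleGraph V) : Nonempty (ChromaticFourScheme G) ↔
    ∃ (Q : G.Coloring (Fin 4)) (T : Set V), IsOddSet G Q T ∧ T.ncard = 4 :=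
  ⟨fun ⟨S⟩ => ⟨S.Q, _, odd_of_scheme S⟩, fun ⟨Q, _, hT, h4⟩ => scheme_of_odd Q hT h4⟩

end Pool.Agent.Helper74.Par
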