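import Pool.Agent.Helper74.Par.Core
import Pool.Agent.Helper74.Par.Def

set_option autoImplicit false

/-!
A critical even edge set of value one gives an odd set.
-/

namespace Pool.Agent.Helper74.Par

open Finset

open scoped Classical

variable {V : Type*} [Fintype V]

/-- The weight of a vertex. -/
noncomputable def tau {G : SimpleGraph V} {L R : Set V} (S : Ed G L R → ZMod 2)
    (A x : V → ZMod 2) (w : V) : ZMod 2 :=
  ∑ e : Ed G L R, S e * ((if e.1.1 = w then x e.1.2 else 0) + (if e.1.2 = w then A e.1.1 else 0))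

lemma sum_tau {G : SimpleGraph V} {L R : Set V} (S : Ed G L R → ZMod 2)
    (A x : V → ZMod 2) (g : V → ZMod 2) :
    ∑ w, g w * tau S A x w =
      ∑ e : Ed G L R, S e * (g e.1.1 * x e.1.2 + g e.1.2 * A e.1.1) := by
  unfold tau
  simp_rw [Finset.mul_sum]
  rw [Finset.sum_comm]
  refine Finset.sum_congr rfl fun e _ => ?_
  have : ∀ w, g w * (S e * ((if e.1.1 = w then x e.1.2 else 0) +
      (if e.1.2 = w then A e.1.1 else 0))) =
      (if e.1.1 = w then S e * (g w * x e.1.2) else 0) +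
      (if e.1.2 = w then S e * (g w * A e.1.1) else 0) := by
    intro w
    split_ifs <;> ring
  simp_rw [this]
  rw [Finset.sum_add_distrib, Finset.sum_ite_eq, Finset.sum_ite_eq]
  simp [mul_add]

/-- The set of the vertices of weight one. -/
def supp (t : V → ZMod 2) : Set V := {w | t w = 1}

lemma card_supp (t : V → ZMod 2) (K : Set V) :
    (((supp t ∩ K).ncard : ℕ) : ZMod 2) = ∑ w, (if w ∈ K then 1 else 0) * t w := by
  have h1 : supp t ∩ K = ((Finset.univ.filter fun w => t w = 1 ∧ w ∈ K : Finset V) : Set V) := by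
    ext w
    simp [supp]
  rw [h1, Set.ncard_coe_finset, Finset.card_filter]
  push_cast
  refine Finset.sum_congr rfl fun w _ => ?_
  rcases zmod2_cases (t w) with h | h
  · simp [h]
  · by_cases hK : w ∈ K <;> simp [h, hK]

lemma even_of_sum (t : V → ZMod 2) (K : Set V)
    (h : ∑ w, (if w ∈ K then (1 : ZMod 2) else 0) * t w = 0) : Even (supp t ∩ K).ncard := by
  rw [← card_supp] at h
  exact (ZMod.natCast_eq_zero_iff_even).mp h

lemma odd_of_sum (t : V → ZMod 2) (K : Set V)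
    (h : ∑ w, (if w ∈ K then (1 : ZMod 2) else 0) * t w = 1) : Odd (supp t ∩ K).ncard := by
  rw [← card_supp] at h
  exact (ZMod.natCast_eq_one_iff_odd).mp h

/-- The data of a critical even edge set of value one. -/
structure Crit (G : SimpleGraph V) (L R L' : Set V) (S : Cyc G L' R) (A x : V → ZMod 2) :
    Prop where
  cover : ∀ w, w ∈ L ∨ w ∈ R
  disj : ∀ w, w ∈ L → w ∈ R → False
  sub : L' ⊆ L
  famA : IsFam G L A
  famx : IsFam G R x
  critA : ∀ B, IsFam G L B → M S.1 B x = 1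
  critx : ∀ y, IsFam G R y → M S.1 A y = 1

lemma dec1 : ∀ s a y : ZMod 2, s * (1 * y + 1 * a) + s * (y + 1) + s * (a + 1) = 0 := by decide

lemma dec2 : ∀ s a y b : ZMod 2, y ≠ b → s * (1 * y + 0 * a) + s * (b + 1) + s * 0 = 0 := by
  decide

lemma dec3 : ∀ s a y b : ZMod 2, a ≠ b → s * (0 * y + 1 * a) + s * 0 + s * (b + 1) = 0 := by
  decide

namespace Crit

variable {G : SimpleGraph V} {L R L' : Set V} {S : Cyc G L' R} {A x : V → ZMod 2}

lemma A_R (h : Crit G L R L' S A x) (e : Ed G L' R) : A e.1.2 = 0 :=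
  h.famA.2 _ fun hl => h.disj _ hl e.2.2.1

lemma x_L (h : Crit G L R L' S A x) (e : Ed G L' R) : x e.1.1 = 0 :=
  h.famx.2 _ fun hr => h.disj _ (h.sub e.2.1) hr

/-- A direction of the family of the `A`. -/
lemma dirA (h : Crit G L R L' S A x) (d : V → ZMod 2)
    (hd : ∀ u ∈ L, ∀ w ∈ L, G.Adj u w → d u = d w) (hd0 : ∀ u, u ∉ L → d u = 0) :
    ∑ w, d w * tau S.1 A x w = 0 := by
  rw [sum_tau]
  have h1 := h.critA _ (isFam_add_const h.famA hd hd0)
  rw [M_add_A, h.critA A h.famA] at h1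
  have h2 : M S.1 d x = 0 := by
    rcases zmod2_cases (M S.1 d x) with h3 | h3
    · exact h3
    · rw [h3] at h1; exact absurd h1 (by decide)
  rw [← h2]
  unfold M
  refine Finset.sum_congr rfl fun e _ => ?_
  rw [hd0 e.1.2 fun hl => h.disj _ hl e.2.2.1]
  ring

lemma dirx (h : Crit G L R L' S A x) (d : V → ZMod 2)
    (hd : ∀ u ∈ R, ∀ w ∈ R, G.Adj u w → d u = d w) (hd0 : ∀ u, u ∉ R → d u = 0) :
    ∑ w, d w * tau S.1 A x w = 0 := by
  rw [sum_tau]
  have h1 := h.critx _ (isFam_add_const h.famx hd hd0)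
  rw [M_add_x, h.critx x h.famx] at h1
  have h2 : M S.1 A d = 0 := by
    rcases zmod2_cases (M S.1 A d) with h3 | h3
    · exact h3
    · rw [h3] at h1; exact absurd h1 (by decide)
  rw [← h2]
  unfold M
  refine Finset.sum_congr rfl fun e _ => ?_
  rw [hd0 e.1.1 fun hr => h.disj _ (h.sub e.2.1) hr]
  ring

/-- The sum over a set which is a union of components for one class on each side. -/
lemma mixed (h : Crit G L R L' S A x) (α β : ZMod 2) (K : Set V)
    (hL : ∀ w ∈ K, w ∈ L → A w = α) (hR : ∀ w ∈ K, w ∈ R → x w = β)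
    (hK : ∀ l r, l ∈ L → r ∈ R → G.Adj l r → A l = α → x r = β → (l ∈ K ↔ r ∈ K)) :
    ∑ w, (if w ∈ K then (1 : ZMod 2) else 0) * tau S.1 A x w = 0 := by
  rw [sum_tau]
  -- use evenness at the vertices of `K ∩ L` and of `K ∩ R`
  have h1 := sum_ends S (fun w => if w ∈ K ∧ w ∈ L then β + 1 else 0)
  have h2 := sum_ends S (fun w => if w ∈ K ∧ w ∈ R then α + 1 else 0)
  have h3 : ∑ e : Ed G L' R, S.1 e * ((if e.1.1 ∈ K then (1 : ZMod 2) else 0) * x e.1.2 +
      (if e.1.2 ∈ K then (1 : ZMod 2) else 0) * A e.1.1) =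
      ∑ e : Ed G L' R, (S.1 e * ((if e.1.1 ∈ K then (1 : ZMod 2) else 0) * x e.1.2 +
      (if e.1.2 ∈ K then (1 : ZMod 2) else 0) * A e.1.1) +
      S.1 e * ((if e.1.1 ∈ K ∧ e.1.1 ∈ L then β + 1 else 0) +
        (if e.1.2 ∈ K ∧ e.1.2 ∈ L then β + 1 else 0)) +
      S.1 e * ((if e.1.1 ∈ K ∧ e.1.1 ∈ R then α + 1 else 0) +
        (if e.1.2 ∈ K ∧ e.1.2 ∈ R then α + 1 else 0))) := by
    rw [Finset.sum_add_distrib, Finset.sum_add_distrib, h1, h2, add_zero, add_zero]
  rw [h3]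
  refine Finset.sum_eq_zero fun e _ => ?_
  have hl : e.1.1 ∈ L := h.sub e.2.1
  have hr : e.1.2 ∈ R := e.2.2.1
  have hl' : e.1.1 ∉ R := fun hh => h.disj _ hl hh
  have hr' : e.1.2 ∉ L := fun hh => h.disj _ hh hr
  have hKe := hK e.1.1 e.1.2 hl hr e.2.2.2
  have hLe := hL e.1.1
  have hRe := hR e.1.2
  simp only [hl, hr, hl', hr', and_true, and_false, if_false, add_zero, zero_add]
  by_cases k1 : e.1.1 ∈ K <;> by_cases k2 : e.1.2 ∈ K
  · rw [hLe k1 hl, hRe k2 hr]
    simp only [k1, k2, if_true]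
    exact dec1 _ _ _
  · have e1 := hLe k1 hl
    have : x e.1.2 ≠ β := fun hy => k2 ((hKe e1 hy).mp k1)
    simp only [k1, k2, if_true, if_false]
    exact dec2 _ _ _ _ this
  · have e2 := hRe k2 hr
    have : A e.1.1 ≠ α := fun ha => k1 ((hKe ha e2).mpr k2)
    simp only [k1, k2, if_true, if_false]
    exact dec3 _ _ _ _ this
  · simp [k1, k2]

end Crit

end Pool.Agent.Helper74.Par
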