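import Pool.Agent.Helper74.Par.Scheme

set_option autoImplicit false

/-!
Rooted parity theorem.
-/

namespace Pool.Agent.Helper74.Par

open Finset

open scoped Classical

universe u

variable {V : Type u} [Fintype V]

/-- `c` is a proper colouring of `G - S`. -/
def PC (G : SimpleGraph V) (S : Set V) (c : V → Fin 3) : Prop :=
  ∀ u w, u ∉ S → w ∉ S → G.Adj u w → c u ≠ c w

/-- The number of neighbours of `v` outside `S` of colour `i`. -/
noncomputable def num (G : SimpleGraph V) (S : Set V) (v : V) (c : V → Fin 3) (i : Fin 3) : ℕ :=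
  (Finset.univ.filter fun w => w ∉ S ∧ G.Adj v w ∧ c w = i).card

omit [Fintype V] in
lemma exists_pc {G : SimpleGraph V} {S : Set V} (h : (G.induce Sᶜ).Colorable 3) :
    ∃ c, PC G S c := by
  obtain ⟨C⟩ := h
  refine ⟨fun w => if hw : w ∈ S then 0 else C ⟨w, hw⟩, fun u w hu hw huw => ?_⟩
  simp only [dif_neg hu, dif_neg hw]
  exact C.valid (by simpa using huw)

lemma num_pos {G : SimpleGraph V} {S : Set V} {v : V} (h : IsRoot G S v) {c : V → Fin 3}
    (hc : PC G S c) (i : Fin 3) : 0 < num G S v c i := by
  rw [Nat.pos_iff_ne_zero]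
  intro h0
  refine h.not_col ⟨SimpleGraph.Coloring.mk (fun w => if w.1 = v then i else c w.1) ?_⟩
  have h0' : ∀ w, w ∉ S → G.Adj v w → c w ≠ i := by
    intro w hw hvw hi
    have : w ∈ Finset.univ.filter fun w => w ∉ S ∧ G.Adj v w ∧ c w = i := by
      simp [hw, hvw, hi]
    rw [num, Finset.card_eq_zero] at h0
    rw [h0] at this
    exact absurd this (Finset.notMem_empty w)
  intro a b hab
  have hab' : G.Adj a.1 b.1 := by simpa using hab
  have ha : a.1 ≠ v → a.1 ∉ S := fun h1 h2 => a.2 ⟨h2, h1⟩
  have hb : b.1 ≠ v → b.1 ∉ S := fun h1 h2 => b.2 ⟨h2, h1⟩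
  by_cases h1 : a.1 = v <;> by_cases h2 : b.1 = v
  · rw [h1, h2] at hab'
    exact absurd hab' (G.loopless.irrefl v)
  · simp only [h1, h2, if_true, if_false]
    rw [h1] at hab'
    exact (h0' b.1 (hb h2) hab').symm
  · simp only [h1, h2, if_true, if_false]
    rw [h2] at hab'
    exact h0' a.1 (ha h1) hab'.symm
  · simp only [h1, h2, if_false]
    exact hc _ _ (ha h1) (hb h2) hab'

/-- The two colours `0`, `1` as elements of `Fin 3`. -/
def em (a : ZMod 2) : Fin 3 := if a = 0 then 0 else 1

lemma em_inj : ∀ a b : ZMod 2, em a = em b → a = b := by decide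

lemma em_ne_two : ∀ a : ZMod 2, em a ≠ 2 := by decide

lemma em_add_one : ∀ a : ZMod 2, em (a + 1) ≠ em a := by decide

/-- The 3-colouring of a lift. -/
noncomputable def liftCol (L : Set V) (q y : V → ZMod 2) (w : V) : Fin 3 :=
  if w ∈ L then em (q w) else if y w = 1 then 2 else em (q w + 1)

omit [Fintype V] in
lemma liftCol_pc {G : SimpleGraph V} {S : Set V} {v : V} {c : V → Fin 3} {i : Fin 3}
    (hc : PC G S c) {q y : V → ZMod 2}
    (hy : ∀ r r', ¬ (r ∈ S ∨ c r = i) → ¬ (r' ∈ S ∨ c r' = i) → G.Adj r r' → y r + y r' = 1)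
    (hq : ∀ l r, (l = v ∨ (l ∉ S ∧ c l = i)) → ¬ (r ∈ S ∨ c r = i) → G.Adj l r → y r = 0 →
      q l = q r) : PC G S (liftCol {w | w ∈ S ∨ c w = i} q y) := by
  intro u w hu hw huw
  unfold liftCol
  simp only [Set.mem_ofPred_eq]
  by_cases h1 : u ∈ S ∨ c u = i <;> by_cases h2 : w ∈ S ∨ c w = i
  · exact absurd ((h1.resolve_left hu).trans (h2.resolve_left hw).symm) (hc u w hu hw huw)
  · rw [if_pos h1, if_neg h2]
    split_ifs with h3
    · exact em_ne_two _
    · have h4 := (zmod2_cases (y w)).resolve_right h3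
      have := hq u w (Or.inr ⟨hu, h1.resolve_left hu⟩) h2 huw h4
      rw [this]
      exact (em_add_one _).symm
  · rw [if_neg h1, if_pos h2]
    split_ifs with h3
    · exact (em_ne_two _).symm
    · have h4 := (zmod2_cases (y u)).resolve_right h3
      have := hq w u (Or.inr ⟨hw, h2.resolve_left hw⟩) h1 huw.symm h4
      rw [this]
      exact em_add_one _
  · rw [if_neg h1, if_neg h2]
    have h5 := hy u w h1 h2 huw
    rcases zmod2_cases (y u) with h3 | h3 <;> rcases zmod2_cases (y w) with h4 | h4
    · rw [h3, h4] at h5; exact absurd h5 (by decide)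
    · rw [h3, h4, if_neg (by decide), if_pos rfl]
      exact em_ne_two _
    · rw [h3, h4, if_pos rfl, if_neg (by decide)]
      exact (em_ne_two _).symm
    · rw [h3, h4] at h5; exact absurd h5 (by decide)

lemma num_liftCol_le {G : SimpleGraph V} {S : Set V} {v : V} {c : V → Fin 3} {i : Fin 3}
    (hv : v ∈ S) {q y : V → ZMod 2}
    (hq : ∀ l r, (l = v ∨ (l ∉ S ∧ c l = i)) → ¬ (r ∈ S ∨ c r = i) → G.Adj l r → y r = 0 →
      q l = q r) :
    num G S v (liftCol {w | w ∈ S ∨ c w = i} q y) (em (q v)) ≤
      (Finset.univ.filter fun w => (w ∉ S ∧ G.Adj v w ∧ c w = i) ∧ q w = q v).card := by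
  unfold num
  apply Finset.card_le_card
  intro w hw
  simp only [Finset.mem_filter, Finset.mem_univ, true_and] at hw ⊢
  obtain ⟨hwS, hvw, hcw⟩ := hw
  unfold liftCol at hcw
  simp only [Set.mem_ofPred_eq] at hcw
  by_cases h1 : w ∈ S ∨ c w = i
  · rw [if_pos h1] at hcw
    exact ⟨⟨hwS, hvw, h1.resolve_left hwS⟩, em_inj _ _ hcw⟩
  · rw [if_neg h1] at hcw
    split_ifs at hcw with h3
    · exact absurd hcw.symm (em_ne_two _)
    · have h4 := (zmod2_cases (y w)).resolve_right h3
      have := hq v w (Or.inl rfl) h1 hvw h4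
      rw [this] at hcw
      exact absurd hcw (em_add_one _)

lemma dz1 : ∀ a b : ZMod 2, a + b = 0 → a = b := by decide

lemma dz2 : ∀ b : ZMod 2, b + 1 = 0 → b = 1 := by decide

lemma dz3 : ∀ a b d : ZMod 2, a + b = d → a + d = b := by decide

lemma dz4 : ∀ a b d e : ZMod 2, a = b → a + d = b + e → d = e := by decide

lemma dz5 : ∀ a b : ZMod 2, a + b = 1 → a ≠ b := by decide

/-- The rooted parity theorem. -/
theorem rooted {G : SimpleGraph V} {S : Set V} {v : V} (h : IsRoot G S v) :
    ∃ (Q : G.Coloring (Fin 4)) (T : Set V), IsOddSet G Q T ∧ T ∩ S = {v} ∧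
      (S = {v} → T ∩ {w | Q w = Q v} = {v}) := by
  -- a 3-colouring of `G - S` and a colour with the smallest number of neighbours of `v`
  obtain ⟨⟨⟨c, hc⟩, i⟩, -, hmin⟩ := Finset.exists_min_image
    (Finset.univ : Finset ({c : V → Fin 3 // PC G S c} × Fin 3))
    (fun p => num G S v p.1.1 p.2)
    ⟨(⟨(exists_pc h.col).choose, (exists_pc h.col).choose_spec⟩, 0), Finset.mem_univ _⟩
  have hmin' : ∀ c' i', PC G S c' → num G S v c i ≤ num G S v c' i' := fun c' i' hc' =>
    hmin (⟨c', hc'⟩, i') (Finset.mem_univ _)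
  have hpos := num_pos h hc i
  set L : Set V := {w | w ∈ S ∨ c w = i} with hL
  set R : Set V := {w | ¬ (w ∈ S ∨ c w = i)} with hR
  set L' : Set V := {w | w = v ∨ (w ∉ S ∧ c w = i)} with hL'
  have hSne : ∀ a b, a ∈ L → b ∈ L → G.Adj a b → (a ∈ S ∧ b ∉ S) ∨ (a ∉ S ∧ b ∈ S) := by
    intro a b ha hb hab
    by_cases h1 : a ∈ S <;> by_cases h2 : b ∈ S
    · exact absurd hab (h.indep a h1 b h2)
    · exact Or.inl ⟨h1, h2⟩
    · exact Or.inr ⟨h1, h2⟩
    · exact absurd ((ha.resolve_left h1).trans (hb.resolve_left h2).symm) (hc a b h1 h2 hab)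
  have famS : IsFam G L (fun w => if w ∈ S then 1 else 0) := by
    refine ⟨fun a ha b hb hab => ?_, fun a ha => ?_⟩
    · rcases hSne a b ha hb hab with ⟨h1, h2⟩ | ⟨h1, h2⟩
      · simp [h1, h2]
      · simp [h1, h2]
    · have : a ∉ S := fun h1 => ha (Or.inl h1)
      simp [this]
  have famR : IsFam G R (fun w => if w ∈ R ∧ c w = i + 1 then 1 else 0) := by
    refine ⟨fun a ha b hb hab => ?_, fun a ha => ?_⟩
    · have h1 : a ∉ S := fun h => ha (Or.inl h)
      have h2 : b ∉ S := fun h => hb (Or.inl h)
      have h3 : c a ≠ i := fun h => ha (Or.inr h)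
      have h4 : c b ≠ i := fun h => hb (Or.inr h)
      have h5 := hc a b h1 h2 hab
      simp only [ha, hb, true_and]
      generalize c a = p at *
      generalize c b = r at *
      have key : ∀ i p r : Fin 3, p ≠ i → r ≠ i → p ≠ r →
          ((if p = i + 1 then (1 : ZMod 2) else 0) + if r = i + 1 then 1 else 0) = 1 := by decide
      exact key i p r h3 h4 h5
    · simp [ha]
  have hvL' : v ∈ L' := Or.inl rfl
  have hsub : L' ⊆ L := by
    rintro w (rfl | hw)
    · exact Or.inl h.mem
    · exact Or.inr hw.2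
  rcases alternative G L R L' ⟨_, famS⟩ ⟨_, famR⟩ with ⟨A, x, q, hA, hx, hq⟩ |
    ⟨Sc, A, x, hA, hx, h1, h2⟩
  · exfalso
    -- first colouring
    have q1 : ∀ l r, (l = v ∨ (l ∉ S ∧ c l = i)) → ¬ (r ∈ S ∨ c r = i) → G.Adj l r → x r = 0 →
        q l = q r := by
      intro l r hl hr hlr h0
      have := hq l hl r hr hlr
      rw [h0, mul_zero] at this
      exact dz1 _ _ this
    have q2 : ∀ l r, (l = v ∨ (l ∉ S ∧ c l = i)) → ¬ (r ∈ S ∨ c r = i) → G.Adj l r →
        x r + 1 = 0 → q l + A l = q r + A r := by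
      intro l r hl hr hlr h0
      have e1 := hq l hl r hr hlr
      have e2 : A r = 0 := hA.2 r fun hh => hr hh
      rw [dz2 _ h0, mul_one] at e1
      rw [e2, add_zero]
      exact dz3 _ _ _ e1
    have y1 : ∀ r r', ¬ (r ∈ S ∨ c r = i) → ¬ (r' ∈ S ∨ c r' = i) → G.Adj r r' →
        x r + x r' = 1 := fun r r' hr hr' hrr => hx.1 r hr r' hr' hrr
    have y2 : ∀ r r', ¬ (r ∈ S ∨ c r = i) → ¬ (r' ∈ S ∨ c r' = i) → G.Adj r r' →
        (x r + 1) + (x r' + 1) = 1 := by
      intro r r' hr hr' hrr
      have e : (x r + 1) + (x r' + 1) = (x r + x r') + (1 + 1) := by ring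
      rw [e, y1 r r' hr hr' hrr]
      decide
    have m1 := (hmin' _ (em (q v)) (liftCol_pc (v := v) hc y1 q1)).trans
      (num_liftCol_le (y := x) h.mem q1)
    have m2 := (hmin' _ (em (q v + A v)) (liftCol_pc (v := v) (q := fun w => q w + A w)
      (y := fun w => x w + 1) hc y2 q2)).trans
      (num_liftCol_le (q := fun w => q w + A w) (y := fun w => x w + 1) h.mem q2)
    have m3 : (Finset.univ.filter fun w => (w ∉ S ∧ G.Adj v w ∧ c w = i) ∧ q w = q v).card +
        (Finset.univ.filter fun w => (w ∉ S ∧ G.Adj v w ∧ c w = i) ∧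
          q w + A w = q v + A v).card ≤ num G S v c i := by
      rw [← Finset.card_union_of_disjoint]
      · unfold num
        apply Finset.card_le_card
        intro w hw
        rcases Finset.mem_union.mp hw with hw | hw
        · simp only [Finset.mem_filter, Finset.mem_univ, true_and] at hw ⊢
          exact hw.1
        · simp only [Finset.mem_filter, Finset.mem_univ, true_and] at hw ⊢
          exact hw.1
      · rw [Finset.disjoint_left]
        intro w hw hw'
        simp only [Finset.mem_filter, Finset.mem_univ, true_and] at hw hw'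
        have e1 := hA.1 v (Or.inl h.mem) w (Or.inr hw.1.2.2) hw.1.2.1
        exact dz5 _ _ e1 (dz4 _ _ _ _ hw.2 hw'.2).symm
    omega
  · have hcr : Crit G L R L' Sc A x :=
      { cover := fun w => by
          by_cases hw : w ∈ S ∨ c w = i
          · exact Or.inl hw
          · exact Or.inr hw
        disj := fun w h3 h4 => h4 h3
        sub := hsub
        famA := hA
        famx := hx
        critA := h1
        critx := h2 }
    have hzero : ∀ w, w ∈ S → w ≠ v → tau Sc.1 A x w = 0 := by
      intro w hw hwv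
      unfold tau
      refine Finset.sum_eq_zero fun e _ => ?_
      have e1 : e.1.1 ≠ w := by
        intro hh
        rcases e.2.1 with h5 | h5
        · exact hwv (hh.symm.trans h5)
        · exact h5.1 (hh ▸ hw)
      have e2 : e.1.2 ≠ w := by
        intro hh
        exact e.2.2.1 (Or.inl (hh ▸ hw))
      rw [if_neg e1, if_neg e2, add_zero, mul_zero]
    -- the weight of `v`
    have hA1 : ∑ w, A w * tau Sc.1 A x w = 1 := by
      rw [sum_tau, ← h1 A hA]
      unfold M
      refine Finset.sum_congr rfl fun e _ => ?_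
      rw [hcr.A_R e]
      ring
    have hd := hcr.dirA (fun w => A w + if w ∈ S then 1 else 0) (fun a ha b hb hab => by
        have e1 := hA.1 a ha b hb hab
        have e2 := famS.1 a ha b hb hab
        simp only at e2
        generalize (if a ∈ S then (1 : ZMod 2) else 0) = p at *
        generalize (if b ∈ S then (1 : ZMod 2) else 0) = r at *
        generalize A a = s at *
        generalize A b = t at *
        have key : ∀ p r s t : ZMod 2, s + t = 1 → p + r = 1 → s + p = t + r := by decide
        exact key p r s t e1 e2) (fun a ha => by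
        have e1 := hA.2 a ha
        have e2 := famS.2 a ha
        simp only at e2
        rw [e1, e2, add_zero])
    have hS1 : ∑ w, (if w ∈ S then (1 : ZMod 2) else 0) * tau Sc.1 A x w = 1 := by
      have e : ∑ w, (A w + if w ∈ S then (1 : ZMod 2) else 0) * tau Sc.1 A x w =
          ∑ w, A w * tau Sc.1 A x w +
          ∑ w, (if w ∈ S then (1 : ZMod 2) else 0) * tau Sc.1 A x w := by
        rw [← Finset.sum_add_distrib]
        exact Finset.sum_congr rfl fun w _ => add_mul _ _ _
      rw [e, hA1] at hd
      generalize (∑ w, (if w ∈ S then (1 : ZMod 2) else 0) * tau Sc.1 A x w) = a at *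
      have key : ∀ a : ZMod 2, 1 + a = 0 → a = 1 := by decide
      exact key a hd
    have hv1 : tau Sc.1 A x v = 1 := by
      rw [← hS1, Finset.sum_eq_single v]
      · rw [if_pos h.mem, one_mul]
      · intro w _ hwv
        by_cases hw : w ∈ S
        · rw [hzero w hw hwv, mul_zero]
        · rw [if_neg hw, zero_mul]
      · intro hh
        exact absurd (Finset.mem_univ _) hh
    refine ⟨hcr.colouring, supp (tau Sc.1 A x), hcr.isOddSet, ?_, ?_⟩
    · ext w
      constructor
      · rintro ⟨h3, h4⟩
        by_contra hne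
        have := hzero w h4 hne
        rw [show tau Sc.1 A x w = 1 from h3] at this
        exact absurd this (by decide)
      · rintro rfl
        exact ⟨hv1, h.mem⟩
    · intro hSv
      ext w
      constructor
      · rintro ⟨h3, h4⟩
        by_contra hne
        have hne' : w ≠ v := hne
        have hwS : w ∉ S := by rw [hSv]; exact hne
        have h5 : colOf L A x w = colOf L A x v := h4
        have hvL : v ∈ L := Or.inl h.mem
        have hwL : w ∈ L ∧ A w = A v := by
          rcases zmod2_cases (A v) with ha | ha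
          · have := (colOf_one L A x v).mpr ⟨hvL, ha⟩
            rw [← h5] at this
            have := (colOf_one L A x w).mp this
            exact ⟨this.1, this.2.trans ha.symm⟩
          · have := (colOf_zero L A x v).mpr ⟨hvL, ha⟩
            rw [← h5] at this
            have := (colOf_zero L A x w).mp this
            exact ⟨this.1, this.2.trans ha.symm⟩
        have hiso : ∀ b, b ∈ L → ¬ G.Adj w b := by
          intro b hb hwb
          rcases hSne w b hwL.1 hb hwb with h6 | h6
          · exact hwS h6.1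
          · have : b = v := by
              have := h6.2
              rw [hSv] at this
              exact this
            subst this
            have := hA.1 w hwL.1 b hvL hwb
            rw [hwL.2, zmod2_add_self] at this
            exact absurd this (by decide)
        have h7 := hcr.dirA (fun a => if a = w then 1 else 0) (fun a ha b hb hab => by
          have h8 : a ≠ w := by
            rintro rfl; exact hiso b hb hab
          have h9 : b ≠ w := by
            rintro rfl; exact hiso a ha hab.symm
          rw [if_neg h8, if_neg h9]) (fun a ha => by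
          have : a ≠ w := by
            rintro rfl; exact ha hwL.1
          rw [if_neg this])
        rw [Finset.sum_eq_single w] at h7
        · rw [if_pos rfl, one_mul, show tau Sc.1 A x w = 1 from h3] at h7
          exact absurd h7 (by decide)
        · intro b _ hb
          rw [if_neg hb, zero_mul]
        · intro hh
          exact absurd (Finset.mem_univ _) hh
      · rintro rfl
        exact ⟨hv1, rfl⟩

omit [Fintype V] in
/-- Every finite 4-chromatic graph has a root. -/
theorem exists_root [Finite V] {G : SimpleGraph V} (h4 : G.Colorable 4) (h3 : ¬ G.Colorable 3) :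
    ∃ S v, IsRoot G S v := by
  obtain ⟨Q⟩ := h4
  have hex : ∃ n, ∃ S : Set V, S.ncard = n ∧ (∀ a ∈ S, ∀ b ∈ S, ¬ G.Adj a b) ∧
      (G.induce Sᶜ).Colorable 3 := by
    refine ⟨_, {w | Q w = 3}, rfl, fun a ha b hb hab => ?_, ?_⟩
    · exact Q.valid hab (ha.trans hb.symm)
    · refine ⟨SimpleGraph.Coloring.mk (fun w => (⟨(Q w.1).val, ?_⟩ : Fin 3)) ?_⟩
      · have h1 : Q w.1 ≠ 3 := w.2
        have h2 := (Q w.1).isLt
        have h3 : (Q w.1).val ≠ 3 := fun hh => h1 (Fin.ext hh)
        omega
      · intro a b hab heq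
        have hab' : G.Adj a.1 b.1 := by simpa using hab
        refine Q.valid hab' (Fin.ext ?_)
        have h9 := Fin.mk.inj_iff.mp heq
        exact h9
  obtain ⟨S, hcard, hind, hcol⟩ := Nat.find_spec hex
  have hne : S.Nonempty := by
    rw [Set.nonempty_iff_ne_empty]
    rintro rfl
    apply h3
    obtain ⟨C⟩ := hcol
    exact ⟨SimpleGraph.Coloring.mk (fun w => C ⟨w, by simp⟩) fun {a b} hab =>
      C.valid (by simpa using hab)⟩
  obtain ⟨v, hv⟩ := hne
  refine ⟨S, v, hv, hind, hcol, fun hcol' => ?_⟩
  have hlt : (S \ {v}).ncard < S.ncard := Set.ncard_sdiff_singleton_lt_of_mem hv (Set.toFinite _)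
  rw [hcard] at hlt
  exact Nat.find_min hex hlt ⟨S \ {v}, rfl, fun a ha b hb => hind a ha.1 b hb.1, hcol'⟩

end Pool.Agent.Helper74.Par
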