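import Pool.Agent.Helper74.Par.Odd

set_option autoImplicit false

/-!
The colouring given by a point of the family, and its odd set.
-/

namespace Pool.Agent.Helper74.Par

open Finset

open scoped Classical

universe u

variable {V : Type u} [Fintype V]

/-- The colour of a vertex. -/
noncomputable def colOf (L : Set V) (A x : V → ZMod 2) (w : V) : Fin 4 :=
  if w ∈ L then (if A w = 1 then 0 else 1) else (if x w = 1 then 2 else 3)

omit [Fintype V] in
lemma colOf_zero (L : Set V) (A x : V → ZMod 2) (w : V) :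
    colOf L A x w = 0 ↔ w ∈ L ∧ A w = 1 := by
  unfold colOf
  split_ifs <;> simp_all

omit [Fintype V] in
lemma colOf_one (L : Set V) (A x : V → ZMod 2) (w : V) :
    colOf L A x w = 1 ↔ w ∈ L ∧ A w = 0 := by
  unfold colOf
  rcases zmod2_cases (A w) with h | h <;> split_ifs <;> simp_all

omit [Fintype V] in
lemma colOf_two (L : Set V) (A x : V → ZMod 2) (w : V) :
    colOf L A x w = 2 ↔ w ∉ L ∧ x w = 1 := by
  unfold colOf
  split_ifs <;> simp_all

omit [Fintype V] in
lemma colOf_three (L : Set V) (A x : V → ZMod 2) (w : V) :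
    colOf L A x w = 3 ↔ w ∉ L ∧ x w = 0 := by
  unfold colOf
  rcases zmod2_cases (x w) with h | h <;> split_ifs <;> simp_all

namespace Crit

variable {G : SimpleGraph V} {L R L' : Set V} {S : Cyc G L' R} {A x : V → ZMod 2}

lemma mem_R (h : Crit G L R L' S A x) {w : V} (hw : w ∉ L) : w ∈ R :=
  (h.cover w).resolve_left hw

lemma proper (h : Crit G L R L' S A x) {u w : V} (huw : G.Adj u w) :
    colOf L A x u ≠ colOf L A x w := by
  intro heq
  by_cases hu : u ∈ L <;> by_cases hw : w ∈ L
  · have h1 := h.famA.1 u hu w hw huw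
    rcases zmod2_cases (A u) with a | a
    · have := (colOf_one L A x u).mpr ⟨hu, a⟩
      rw [heq] at this
      rw [a, ((colOf_one L A x w).mp this).2] at h1
      exact absurd h1 (by decide)
    · have := (colOf_zero L A x u).mpr ⟨hu, a⟩
      rw [heq] at this
      rw [a, ((colOf_zero L A x w).mp this).2] at h1
      exact absurd h1 (by decide)
  · rcases zmod2_cases (A u) with a | a
    · have := (colOf_one L A x u).mpr ⟨hu, a⟩
      rw [heq] at this
      exact hw ((colOf_one L A x w).mp this).1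
    · have := (colOf_zero L A x u).mpr ⟨hu, a⟩
      rw [heq] at this
      exact hw ((colOf_zero L A x w).mp this).1
  · rcases zmod2_cases (A w) with a | a
    · have := (colOf_one L A x w).mpr ⟨hw, a⟩
      rw [← heq] at this
      exact hu ((colOf_one L A x u).mp this).1
    · have := (colOf_zero L A x w).mpr ⟨hw, a⟩
      rw [← heq] at this
      exact hu ((colOf_zero L A x u).mp this).1
  · have h1 := h.famx.1 u (h.mem_R hu) w (h.mem_R hw) huw
    rcases zmod2_cases (x u) with a | a
    · have := (colOf_three L A x u).mpr ⟨hu, a⟩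
      rw [heq] at this
      rw [a, ((colOf_three L A x w).mp this).2] at h1
      exact absurd h1 (by decide)
    · have := (colOf_two L A x u).mpr ⟨hu, a⟩
      rw [heq] at this
      rw [a, ((colOf_two L A x w).mp this).2] at h1
      exact absurd h1 (by decide)

/-- The 4-colouring. -/
noncomputable def colouring (h : Crit G L R L' S A x) : G.Coloring (Fin 4) :=
  SimpleGraph.Coloring.mk (colOf L A x) fun {_ _} huw => h.proper huw

lemma colouring_apply (h : Crit G L R L' S A x) (w : V) : h.colouring w = colOf L A x w := rfl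

lemma sumLL (h : Crit G L R L' S A x) (K : Set V) (hcol : ∀ w ∈ K, w ∈ L)
    (hcl : ∀ u ∈ L, ∀ w ∈ L, G.Adj u w → (u ∈ K ↔ w ∈ K)) :
    ∑ w, (if w ∈ K then (1 : ZMod 2) else 0) * tau S.1 A x w = 0 := by
  refine h.dirA (fun w => if w ∈ K then 1 else 0) (fun u hu w hw huw => ?_) fun u hu => ?_
  · simp only [hcl u hu w hw huw]
  · simp only [if_neg fun hk => hu (hcol u hk)]

lemma sumRR (h : Crit G L R L' S A x) (K : Set V) (hcol : ∀ w ∈ K, w ∈ R)
    (hcl : ∀ u ∈ R, ∀ w ∈ R, G.Adj u w → (u ∈ K ↔ w ∈ K)) :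
    ∑ w, (if w ∈ K then (1 : ZMod 2) else 0) * tau S.1 A x w = 0 := by
  refine h.dirx (fun w => if w ∈ K then 1 else 0) (fun u hu w hw huw => ?_) fun u hu => ?_
  · simp only [hcl u hu w hw huw]
  · simp only [if_neg fun hk => hu (hcol u hk)]

lemma sumLR (h : Crit G L R L' S A x) (α β : ZMod 2) (i j : Fin 4)
    (hi : ∀ w, colOf L A x w = i ↔ w ∈ L ∧ A w = α)
    (hj : ∀ w, colOf L A x w = j ↔ w ∉ L ∧ x w = β) (K : Set V)
    (hcol : ∀ w ∈ K, colOf L A x w = i ∨ colOf L A x w = j)
    (hcl : ∀ u w, G.Adj u w → (colOf L A x u = i ∨ colOf L A x u = j) →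
      (colOf L A x w = i ∨ colOf L A x w = j) → (u ∈ K ↔ w ∈ K)) :
    ∑ w, (if w ∈ K then (1 : ZMod 2) else 0) * tau S.1 A x w = 0 := by
  refine h.mixed α β K (fun w hw hl => ?_) (fun w hw hr => ?_) fun l r hl hr hlr ha hb => ?_
  · rcases hcol w hw with hc | hc
    · exact ((hi w).mp hc).2
    · exact absurd hl ((hj w).mp hc).1
  · rcases hcol w hw with hc | hc
    · exact (h.disj w ((hi w).mp hc).1 hr).elim
    · exact ((hj w).mp hc).2
  · exact hcl l r hlr (Or.inl ((hi l).mpr ⟨hl, ha⟩))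
      (Or.inr ((hj r).mpr ⟨fun hl' => h.disj r hl' hr, hb⟩))

end Crit

omit [Fintype V] in
lemma BiJoined.symm' {G : SimpleGraph V} {Q : V → Fin 4} {a b : Fin 4} {v w : V}
    (h : BiJoined G Q a b v w) : BiJoined G Q b a v w := by
  obtain ⟨p, hp⟩ := h
  exact ⟨p, fun z hz => (hp z hz).symm⟩

omit [Fintype V] in
lemma BiJoined.col {G : SimpleGraph V} {Q : V → Fin 4} {a b : Fin 4} {v w : V}
    (h : BiJoined G Q a b v w) : Q w = a ∨ Q w = b := by
  obtain ⟨p, hp⟩ := h
  exact hp w p.end_mem_support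

omit [Fintype V] in
lemma BiJoined.step {G : SimpleGraph V} {Q : V → Fin 4} {a b : Fin 4} {v u w : V}
    (h : BiJoined G Q a b v u) (huw : G.Adj u w) (hw : Q w = a ∨ Q w = b) :
    BiJoined G Q a b v w := by
  obtain ⟨p, hp⟩ := h
  refine ⟨p.concat huw, fun z hz => ?_⟩
  have hz' : z ∈ p.support ∨ z = w := by
    simpa [SimpleGraph.Walk.support_concat] using hz
  rcases hz' with h1 | h1
  · exact hp z h1
  · rw [h1]; exact hw

omit [Fintype V] in
lemma BiJoined.iff {G : SimpleGraph V} {Q : V → Fin 4} {a b : Fin 4} {v u w : V}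
    (huw : G.Adj u w) (hu : Q u = a ∨ Q u = b) (hw : Q w = a ∨ Q w = b) :
    BiJoined G Q a b v u ↔ BiJoined G Q a b v w :=
  ⟨fun h => h.step huw hw, fun h => h.step huw.symm hu⟩

namespace Crit

variable {G : SimpleGraph V} {L R L' : Set V} {S : Cyc G L' R} {A x : V → ZMod 2}

lemma sum_bi (h : Crit G L R L' S A x) (a b : Fin 4) (hab : a ≠ b) (v : V) :
    ∑ w, (if w ∈ {w | BiJoined G (colOf L A x) a b v w} then (1 : ZMod 2) else 0) *
      tau S.1 A x w = 0 := by
  -- it suffices to treat the case `a < b`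
  have key : ∀ a b : Fin 4, a < b →
      ∑ w, (if w ∈ {w | BiJoined G (colOf L A x) a b v w} then (1 : ZMod 2) else 0) *
        tau S.1 A x w = 0 := by
    intro a b hab
    have hcol : ∀ w ∈ {w | BiJoined G (colOf L A x) a b v w},
        colOf L A x w = a ∨ colOf L A x w = b := fun w hw => BiJoined.col hw
    have hcl : ∀ u w, G.Adj u w → (colOf L A x u = a ∨ colOf L A x u = b) →
        (colOf L A x w = a ∨ colOf L A x w = b) →
        (u ∈ {w | BiJoined G (colOf L A x) a b v w} ↔
          w ∈ {w | BiJoined G (colOf L A x) a b v w}) :=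
      fun u w huw hu hw => BiJoined.iff huw hu hw
    have hR : ∀ w, w ∈ R → w ∉ L := fun w hw hl => h.disj w hl hw
    have cases : (a = 0 ∧ b = 1) ∨ (a = 2 ∧ b = 3) ∨ (a = 0 ∧ b = 2) ∨ (a = 0 ∧ b = 3) ∨
        (a = 1 ∧ b = 2) ∨ (a = 1 ∧ b = 3) := by
      revert hab; clear hcol hcl; revert a b; decide
    rcases cases with ⟨rfl, rfl⟩ | ⟨rfl, rfl⟩ | ⟨rfl, rfl⟩ | ⟨rfl, rfl⟩ | ⟨rfl, rfl⟩ | ⟨rfl, rfl⟩
    · refine h.sumLL _ (fun w hw => ?_) fun u hu w hw huw => hcl u w huw ?_ ?_
      · rcases hcol w hw with hc | hc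
        · exact ((colOf_zero L A x w).mp hc).1
        · exact ((colOf_one L A x w).mp hc).1
      · rcases zmod2_cases (A u) with ha | ha
        · exact Or.inr ((colOf_one L A x u).mpr ⟨hu, ha⟩)
        · exact Or.inl ((colOf_zero L A x u).mpr ⟨hu, ha⟩)
      · rcases zmod2_cases (A w) with ha | ha
        · exact Or.inr ((colOf_one L A x w).mpr ⟨hw, ha⟩)
        · exact Or.inl ((colOf_zero L A x w).mpr ⟨hw, ha⟩)
    · refine h.sumRR _ (fun w hw => ?_) fun u hu w hw huw => hcl u w huw ?_ ?_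
      · rcases hcol w hw with hc | hc
        · exact h.mem_R ((colOf_two L A x w).mp hc).1
        · exact h.mem_R ((colOf_three L A x w).mp hc).1
      · rcases zmod2_cases (x u) with ha | ha
        · exact Or.inr ((colOf_three L A x u).mpr ⟨hR u hu, ha⟩)
        · exact Or.inl ((colOf_two L A x u).mpr ⟨hR u hu, ha⟩)
      · rcases zmod2_cases (x w) with ha | ha
        · exact Or.inr ((colOf_three L A x w).mpr ⟨hR w hw, ha⟩)
        · exact Or.inl ((colOf_two L A x w).mpr ⟨hR w hw, ha⟩)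
    · exact h.sumLR 1 1 0 2 (colOf_zero L A x) (colOf_two L A x) _ hcol hcl
    · exact h.sumLR 1 0 0 3 (colOf_zero L A x) (colOf_three L A x) _ hcol hcl
    · exact h.sumLR 0 1 1 2 (colOf_one L A x) (colOf_two L A x) _ hcol hcl
    · exact h.sumLR 0 0 1 3 (colOf_one L A x) (colOf_three L A x) _ hcol hcl
  rcases lt_or_gt_of_ne hab with hlt | hgt
  · exact key a b hlt
  · refine Eq.trans (Finset.sum_congr rfl fun w _ => ?_) (key b a hgt)
    rw [if_congr (show w ∈ {w | BiJoined G (colOf L A x) a b v w} ↔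
      w ∈ {w | BiJoined G (colOf L A x) b a v w} from
      ⟨fun hw => BiJoined.symm' hw, fun hw => BiJoined.symm' hw⟩) rfl rfl]

lemma sum_L (h : Crit G L R L' S A x) (g : V → ZMod 2) (hg : ∀ w ∈ R, g w = 0) :
    ∑ e : Ed G L' R, S.1 e * g e.1.1 = 0 := by
  rw [← sum_ends S g]
  refine Finset.sum_congr rfl fun e _ => ?_
  rw [hg e.1.2 e.2.2.1, add_zero]

lemma sum_R (h : Crit G L R L' S A x) (g : V → ZMod 2) (hg : ∀ w ∈ L, g w = 0) :
    ∑ e : Ed G L' R, S.1 e * g e.1.2 = 0 := by
  rw [← sum_ends S g]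
  refine Finset.sum_congr rfl fun e _ => ?_
  rw [hg e.1.1 (h.sub e.2.1), zero_add]

lemma sum_col (h : Crit G L R L' S A x) (a : Fin 4) :
    ∑ w, (if w ∈ {w | colOf L A x w = a} then (1 : ZMod 2) else 0) * tau S.1 A x w = 1 := by
  have hM : ∑ e : Ed G L' R, S.1 e * (A e.1.1 * x e.1.2) = 1 := h.critA A h.famA
  have hA0 : ∀ w ∈ R, A w = 0 := fun w hw => h.famA.2 w fun hl => h.disj w hl hw
  have hx0 : ∀ w ∈ L, x w = 0 := fun w hw => h.famx.2 w fun hr => h.disj w hw hr
  have s1 := h.sum_L A hA0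
  have s2 := h.sum_R x hx0
  have cases : a = 0 ∨ a = 1 ∨ a = 2 ∨ a = 3 := by revert a; decide
  rw [sum_tau]
  rcases cases with rfl | rfl | rfl | rfl
  · refine Eq.trans (Finset.sum_congr rfl fun e _ => ?_) hM
    have hr : e.1.2 ∉ L := fun hl => h.disj _ hl e.2.2.1
    simp only [Set.mem_setOf_eq, colOf_zero, h.sub e.2.1, hr, true_and, false_and, if_false,
      zero_mul, add_zero]
    rcases zmod2_cases (A e.1.1) with ha | ha <;> simp [ha]
  · have : ∑ e : Ed G L' R, (S.1 e * x e.1.2 + S.1 e * (A e.1.1 * x e.1.2)) = 1 := by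
      rw [Finset.sum_add_distrib, s2, hM, zero_add]
    refine Eq.trans (Finset.sum_congr rfl fun e _ => ?_) this
    have hr : e.1.2 ∉ L := fun hl => h.disj _ hl e.2.2.1
    simp only [Set.mem_setOf_eq, colOf_one, h.sub e.2.1, hr, true_and, false_and, if_false,
      zero_mul, add_zero]
    rcases zmod2_cases (A e.1.1) with ha | ha
    · simp [ha]
    · simp only [ha, one_mul]
      rw [if_neg (by decide), zero_mul, mul_zero, zmod2_add_self]
  · refine Eq.trans (Finset.sum_congr rfl fun e _ => ?_) hM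
    have hr : e.1.2 ∉ L := fun hl => h.disj _ hl e.2.2.1
    simp only [Set.mem_setOf_eq, colOf_two, h.sub e.2.1, hr, not_true, not_false_eq_true,
      true_and, false_and, if_false, zero_mul, zero_add]
    rcases zmod2_cases (x e.1.2) with ha | ha <;> simp [ha]
  · have : ∑ e : Ed G L' R, (S.1 e * A e.1.1 + S.1 e * (A e.1.1 * x e.1.2)) = 1 := by
      rw [Finset.sum_add_distrib, s1, hM, zero_add]
    refine Eq.trans (Finset.sum_congr rfl fun e _ => ?_) this
    have hr : e.1.2 ∉ L := fun hl => h.disj _ hl e.2.2.1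
    simp only [Set.mem_setOf_eq, colOf_three, h.sub e.2.1, hr, not_true, not_false_eq_true,
      true_and, false_and, if_false, zero_mul, zero_add]
    rcases zmod2_cases (x e.1.2) with ha | ha
    · simp [ha]
    · simp only [ha, mul_one]
      rw [if_neg (by decide), zero_mul, mul_zero, zmod2_add_self]

/-- The odd set. -/
theorem isOddSet (h : Crit G L R L' S A x) :
    IsOddSet G h.colouring (supp (tau S.1 A x)) where
  odd a := odd_of_sum _ _ (by
    refine Eq.trans (Finset.sum_congr rfl fun w _ => ?_) (h.sum_col a)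
    by_cases hw : w ∈ {w | colOf L A x w = a}
    · rw [if_pos hw, if_pos (show w ∈ {v | h.colouring v = a} from hw)]
    · rw [if_neg hw, if_neg (show w ∉ {v | h.colouring v = a} from hw)])
  even a b hab v := even_of_sum _ _ (by
    refine Eq.trans (Finset.sum_congr rfl fun w _ => ?_) (h.sum_bi a b hab v)
    by_cases hw : w ∈ {w | BiJoined G (colOf L A x) a b v w}
    · rw [if_pos hw, if_pos (show w ∈ {w | BiJoined G h.colouring a b v w} from hw)]
    · rw [if_neg hw, if_neg (show w ∉ {w | BiJoined G h.colouring a b v w} from hw)])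

end Crit

end Pool.Agent.Helper74.Par
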